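import Mathlib
import Pool.Agent.Q264.GM.Stm

/-!
# Job GM-EHR (project GM of helper264): Ehrhard's inequality for convex sets of the line
-/

set_option autoImplicit false

open MeasureTheory ProbabilityTheory Set Filter Topology
open scoped ENNReal

namespace Pool.Agent.Q182.GM

open Pool.Agent.Q264.GM

/-- a convex set of the line is exhausted by compact intervals -/
theorem exists_Icc (hPHI : S_PHI) {I : Set ℝ} (hI : Convex ℝ I) {s ε : ℝ} (hε : 0 < ε)
    (hs : P s ≤ g1.real I) : ∃ a b : ℝ, a < b ∧ Icc a b ⊆ I ∧ P (s - ε) ≤ P b - P a := by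
  obtain ⟨hd, hmono, hpos, hlt, hneg, hbot, htop, hIcc, -⟩ := hPHI
  have hord : OrdConnected I := hI.ordConnected
  have h1 : ENNReal.ofReal (P (s - ε)) < g1 I := by
    rw [ENNReal.ofReal_lt_iff_lt_toReal (hpos _).le (measure_ne_top _ _)]
    exact (hmono (by linarith)).trans_le hs
  obtain ⟨K, hK, hKc, hlt'⟩ := hord.measurableSet.exists_lt_isCompact_of_ne_top
    (measure_ne_top _ _) h1
  have hne : K.Nonempty := by
    rw [nonempty_iff_ne_empty]
    rintro rfl
    rw [measure_empty] at hlt'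
    exact not_lt_zero hlt'
  have ha := hK (hKc.sInf_mem hne)
  have hb := hK (hKc.sSup_mem hne)
  have hsub : K ⊆ Icc (sInf K) (sSup K) := fun x hx =>
    ⟨csInf_le hKc.bddBelow hx, le_csSup hKc.bddAbove hx⟩
  have hab : sInf K ≤ sSup K := by
    obtain ⟨x, hx⟩ := hne
    exact (hsub hx).1.trans (hsub hx).2
  have h2 : P (s - ε) ≤ P (sSup K) - P (sInf K) := by
    rw [← hIcc _ _ hab]
    rw [ENNReal.ofReal_lt_iff_lt_toReal (hpos _).le (measure_ne_top _ _)] at hlt'
    exact hlt'.le.trans (measureReal_mono hsub)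
  refine ⟨sInf K, sSup K, ?_, hord.out ha hb, h2⟩
  rcases eq_or_lt_of_le hab with h | h
  · rw [← h, sub_self] at h2
    exact absurd h2 (not_le.mpr (hpos _))
  · exact h

theorem t_EHR (hPHI : S_PHI) (hEHRC : S_EHRC) : S_EHR := by
  intro I J H s s' l hI hJ hl0 hl1 hH hs hs'
  have hcont : Continuous P := continuous_iff_continuousAt.mpr fun x => (hPHI.1 x).continuousAt
  have key : ∀ ε : ℝ, 0 < ε → P ((1 - l) * s + l * s' - ε) ≤ g1.real H := by
    intro ε hε
    obtain ⟨a, b, hab, hIab, h1⟩ := exists_Icc hPHI hI hε hs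
    obtain ⟨a', b', hab', hJab, h2⟩ := exists_Icc hPHI hJ hε hs'
    have h3 := hEHRC a b a' b' (s - ε) (s' - ε) l hab hab' hl0 hl1 h1 h2
    have hw : 0 < 1 - l := by linarith
    have hAB : (1 - l) * a + l * a' < (1 - l) * b + l * b' :=
      add_lt_add (mul_lt_mul_of_pos_left hab hw) (mul_lt_mul_of_pos_left hab' hl0)
    have h4 : Icc ((1 - l) * a + l * a') ((1 - l) * b + l * b') ⊆ H := by
      intro t ht
      set θ : ℝ := (t - ((1 - l) * a + l * a')) /
        (((1 - l) * b + l * b') - ((1 - l) * a + l * a')) with hθ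
      have hpos : 0 < ((1 - l) * b + l * b') - ((1 - l) * a + l * a') := sub_pos.mpr hAB
      have hθ0 : 0 ≤ θ := div_nonneg (sub_nonneg.mpr ht.1) hpos.le
      have hθ1 : θ ≤ 1 := by
        rw [hθ, div_le_one hpos]
        linarith [ht.2]
      have hθe : θ * (((1 - l) * b + l * b') - ((1 - l) * a + l * a')) =
          t - ((1 - l) * a + l * a') := div_mul_cancel₀ _ hpos.ne'
      have e1 : a + θ * (b - a) ∈ I := by
        apply hIab
        have := mul_nonneg hθ0 (sub_nonneg.mpr hab.le)
        have h5 := mul_nonneg (sub_nonneg.mpr hθ1) (sub_nonneg.mpr hab.le)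
        constructor <;> nlinarith
      have e2 : a' + θ * (b' - a') ∈ J := by
        apply hJab
        have := mul_nonneg hθ0 (sub_nonneg.mpr hab'.le)
        have h5 := mul_nonneg (sub_nonneg.mpr hθ1) (sub_nonneg.mpr hab'.le)
        constructor <;> nlinarith
      have e3 := hH _ e1 _ e2
      have e4 : (1 - l) * (a + θ * (b - a)) + l * (a' + θ * (b' - a')) = t := by
        linear_combination hθe
      rwa [e4] at e3
    have h5 : g1.real (Icc ((1 - l) * a + l * a') ((1 - l) * b + l * b')) =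
        P ((1 - l) * b + l * b') - P ((1 - l) * a + l * a') :=
      hPHI.2.2.2.2.2.2.2.1 _ _ hAB.le
    have h6 : (1 - l) * (s - ε) + l * (s' - ε) = (1 - l) * s + l * s' - ε := by ring
    rw [h6, ← h5] at h3
    exact h3.trans (measureReal_mono h4)
  have h1 : Tendsto (fun ε : ℝ => P ((1 - l) * s + l * s' - ε)) (𝓝[>] 0)
      (𝓝 (P ((1 - l) * s + l * s' - 0))) := by
    have h2 : Continuous (fun ε : ℝ => P ((1 - l) * s + l * s' - ε)) := by fun_prop
    exact (h2.tendsto 0).mono_left nhdsWithin_le_nhds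
  rw [sub_zero] at h1
  refine le_of_tendsto h1 ?_
  filter_upwards [self_mem_nhdsWithin] with ε hε
  exact key ε hε

end Pool.Agent.Q182.GM
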