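import Mathlib
import Pool.Agent.Q264.GM.Stm

/-!
# Job GM-EHRC (project GM of helper264): Ehrhard's inequality for compact intervals of the line
-/

set_option autoImplicit false

open MeasureTheory ProbabilityTheory Set Filter Topology

namespace Pool.Agent.Q182.GM

open Pool.Agent.Q264.GM

theorem ph_pos (x : ℝ) : 0 < ph x := by
  unfold ph
  positivity

theorem ph_neg (x : ℝ) : ph (-x) = ph x := by
  unfold ph
  rw [neg_sq]

theorem ph_deriv (x : ℝ) : HasDerivAt ph (-x * ph x) x := by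
  unfold ph
  have h1 : HasDerivAt (fun x : ℝ => -x ^ 2 / 2) (-x) x := by
    refine (((hasDerivAt_pow 2 x).fun_neg).div_const 2).congr_deriv ?_
    push_cast
    ring
  refine ((h1.exp).const_mul ((√(2 * Real.pi))⁻¹)).congr_deriv ?_
  ring

theorem t_EHRC (hPHI : S_PHI) (hQF : S_QF) : S_EHRC := by
  obtain ⟨hd, hmono, hpos, hlt, hneg, hbot, htop, -, -⟩ := hPHI
  have hcont : Continuous P := continuous_iff_continuousAt.mpr fun x => (hd x).continuousAt
  have hsurj : ∀ v ∈ Ioo (0 : ℝ) 1, P (Function.invFun P v) = v := by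
    intro v hv
    apply Function.invFun_eq
    apply mem_range_of_exists_le_of_exists_ge hcont
    · obtain ⟨x, hx⟩ := (hbot.eventually (Iio_mem_nhds hv.1)).exists
      exact ⟨x, le_of_lt hx⟩
    · obtain ⟨x, hx⟩ := (htop.eventually (Ioi_mem_nhds hv.2)).exists
      exact ⟨x, le_of_lt hx⟩
  have hinv : ∀ x, Function.invFun P (P x) = x := Function.leftInverse_invFun hmono.injective
  generalize Function.invFun P = Ψ at hsurj hinv
  have hΨmono : StrictMonoOn Ψ (Ioo 0 1) := by
    intro u hu v hv huv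
    apply hmono.lt_iff_lt.mp
    rw [hsurj u hu, hsurj v hv]
    exact huv
  have hΨc : ∀ v ∈ Ioo (0 : ℝ) 1, ContinuousAt Ψ v := by
    intro v hv
    refine hΨmono.continuousAt_of_image_mem_nhds (Ioo_mem_nhds hv.1 hv.2) ?_
    have : Ψ '' Ioo 0 1 = univ := by
      apply eq_univ_of_forall
      intro x
      exact ⟨P x, ⟨hpos x, hlt x⟩, hinv x⟩
    rw [this]
    exact univ_mem
  have hΨd : ∀ v ∈ Ioo (0 : ℝ) 1, HasDerivAt Ψ (ph (Ψ v))⁻¹ v := by
    intro v hv
    refine HasDerivAt.of_local_left_inverse (hΨc v hv) (hd _) (ph_pos _).ne' ?_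
    filter_upwards [Ioo_mem_nhds hv.1 hv.2] with y hy
    exact hsurj y hy
  intro a b a' b' s s' l hab hab' hl0 hl1 hs hs'
  set A : ℝ → ℝ := fun l => (1 - l) * a + l * a' with hA
  set B : ℝ → ℝ := fun l => (1 - l) * b + l * b' with hB
  set F : ℝ → ℝ := fun l => P (B l) - P (A l) with hF
  set N : ℝ → ℝ := fun l => ph (B l) * (b' - b) - ph (A l) * (a' - a) with hN
  have hAB : ∀ l ∈ Icc (0 : ℝ) 1, A l < B l := by
    intro l hl
    simp only [hA, hB]
    rcases eq_or_lt_of_le hl.1 with h | h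
    · subst h
      linarith
    · have h1 : (1 - l) * a ≤ (1 - l) * b := mul_le_mul_of_nonneg_left hab.le (by linarith [hl.2])
      have h2 : l * a' < l * b' := mul_lt_mul_of_pos_left hab' h
      linarith
  have hF01 : ∀ l ∈ Icc (0 : ℝ) 1, F l ∈ Ioo (0 : ℝ) 1 := by
    intro l hl
    refine ⟨?_, ?_⟩
    · exact sub_pos.mpr (hmono (hAB l hl))
    · have h1 := hlt (B l)
      have h2 := hpos (A l)
      simp only [hF]
      linarith
  have hAd : ∀ l, HasDerivAt A (a' - a) l := by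
    intro l
    refine ((((hasDerivAt_id l).const_sub 1).mul_const a).add
      ((hasDerivAt_id l).mul_const a')).congr_deriv ?_
    ring
  have hBd : ∀ l, HasDerivAt B (b' - b) l := by
    intro l
    refine ((((hasDerivAt_id l).const_sub 1).mul_const b).add
      ((hasDerivAt_id l).mul_const b')).congr_deriv ?_
    ring
  have hFd : ∀ l, HasDerivAt F (N l) l := fun l =>
    ((hd (B l)).comp l (hBd l)).sub ((hd (A l)).comp l (hAd l))
  have hWd : ∀ l ∈ Icc (0 : ℝ) 1, HasDerivAt (fun l => Ψ (F l)) ((ph (Ψ (F l)))⁻¹ * N l) l :=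
    fun l hl => (hΨd (F l) (hF01 l hl)).comp l (hFd l)
  have hNd : ∀ l, HasDerivAt N (-B l * ph (B l) * (b' - b) * (b' - b) -
      -A l * ph (A l) * (a' - a) * (a' - a)) l := fun l =>
    (((ph_deriv (B l)).comp l (hBd l)).mul_const (b' - b)).sub
      (((ph_deriv (A l)).comp l (hAd l)).mul_const (a' - a))
  have hDd : ∀ l ∈ Icc (0 : ℝ) 1, HasDerivAt (fun l => ph (Ψ (F l)))
      (-Ψ (F l) * ph (Ψ (F l)) * ((ph (Ψ (F l)))⁻¹ * N l)) l :=
    fun l hl => (ph_deriv _).comp l (hWd l hl)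
  have hconc : ConcaveOn ℝ (Icc 0 1) (fun l => Ψ (F l)) := by
    refine concaveOn_of_hasDerivWithinAt2_nonpos (convex_Icc 0 1) (f' := fun l => N l / ph (Ψ (F l)))
      (f'' := fun l => ((-B l * ph (B l) * (b' - b) * (b' - b) -
        -A l * ph (A l) * (a' - a) * (a' - a)) * ph (Ψ (F l)) -
        N l * (-Ψ (F l) * ph (Ψ (F l)) * ((ph (Ψ (F l)))⁻¹ * N l))) / ph (Ψ (F l)) ^ 2) ?_ ?_ ?_ ?_
    · exact fun l hl => (hWd l hl).continuousAt.continuousWithinAt
    · intro l hl
      refine ((hWd l (interior_subset hl)).congr_deriv ?_).hasDerivWithinAt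
      rw [div_eq_inv_mul]
    · intro l hl
      exact ((hNd l).div (hDd l (interior_subset hl)) (ph_pos _).ne').hasDerivWithinAt
    · intro l hl
      have hl' := interior_subset hl
      have h1 := hsurj (F l) (hF01 l hl')
      have h2 : P (-Ψ (F l)) = P (-(-A l)) + P (-B l) := by
        rw [hneg, h1, neg_neg, hneg (B l)]
        simp only [hF]
        ring
      have h3 := hQF (-A l) (B l) (Ψ (F l)) h2 (ph (A l) * (a' - a)) (ph (B l) * (b' - b))
      rw [ph_neg] at h3
      have p1 := ph_pos (Ψ (F l))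
      have p2 := ph_pos (A l)
      have p3 := ph_pos (B l)
      apply div_nonpos_of_nonpos_of_nonneg _ (by positivity)
      have h4 : Ψ (F l) / ph (Ψ (F l)) * (ph (B l) * (b' - b) - ph (A l) * (a' - a)) ^ 2 ≤
          -A l * ph (A l) * (a' - a) * (a' - a) + B l * ph (B l) * (b' - b) * (b' - b) := by
        refine h3.trans (le_of_eq ?_)
        field_simp
      have h5 := mul_le_mul_of_nonneg_left h4 p1.le
      have h6 : ph (Ψ (F l)) * (Ψ (F l) / ph (Ψ (F l)) *
          (ph (B l) * (b' - b) - ph (A l) * (a' - a)) ^ 2) = Ψ (F l) * N l ^ 2 := by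
        simp only [hN]
        field_simp
      rw [h6] at h5
      have h7 : N l * (-Ψ (F l) * ph (Ψ (F l)) * ((ph (Ψ (F l)))⁻¹ * N l)) =
          -(Ψ (F l) * N l ^ 2) := by
        field_simp
      rw [h7]
      linarith
  have h0 : s ≤ Ψ (F 0) := by
    apply hmono.le_iff_le.mp
    rw [hsurj _ (hF01 0 ⟨le_refl _, zero_le_one⟩)]
    simpa [hF, hA, hB] using hs
  have h1 : s' ≤ Ψ (F 1) := by
    apply hmono.le_iff_le.mp
    rw [hsurj _ (hF01 1 ⟨zero_le_one, le_refl _⟩)]
    simpa [hF, hA, hB] using hs'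
  have h2 := hconc.2 (show (0 : ℝ) ∈ Icc (0 : ℝ) 1 from ⟨le_refl _, zero_le_one⟩)
    (show (1 : ℝ) ∈ Icc (0 : ℝ) 1 from ⟨zero_le_one, le_refl _⟩)
    (show (0 : ℝ) ≤ 1 - l by linarith) hl0.le (by ring)
  simp only [smul_eq_mul, mul_zero, mul_one, zero_add] at h2
  have h3 : (1 - l) * s + l * s' ≤ Ψ (F l) := by
    have e1 := mul_le_mul_of_nonneg_left h0 (show (0 : ℝ) ≤ 1 - l by linarith)
    have e2 := mul_le_mul_of_nonneg_left h1 hl0.le
    linarith
  have h4 := hmono.monotone h3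
  rwa [hsurj _ (hF01 l ⟨hl0.le, hl1.le⟩)] at h4

end Pool.Agent.Q182.GM
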