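import Mathlib
import Pool.Agent.Q264.GM.Stm

/-!
# Job GM-LC (project GM of helper264): `G` is log-concave
-/

set_option autoImplicit false

open MeasureTheory ProbabilityTheory Set Filter Topology
open scoped ENNReal

namespace Pool.Agent.Q182.GM

open Pool.Agent.Q264.GM

theorem meas_A {m : ℕ} {C : Set ((Fin m → ℝ) × ℝ)} (hC : IsClosed C) (s : ℝ) :
    MeasurableSet {y : Fin m → ℝ | P s ≤ g1.real (sec C y)} := by
  have h1 : Measurable (fun y : Fin m → ℝ => g1 (Prod.mk y ⁻¹' C)) :=
    measurable_measure_prodMk_left hC.measurableSet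
  exact measurableSet_le measurable_const h1.ennreal_toReal

theorem convex_sec {m : ℕ} {C : Set ((Fin m → ℝ) × ℝ)} (hC : Convex ℝ C) (y : Fin m → ℝ) :
    Convex ℝ (sec C y) := by
  intro s hs t ht a b ha hb hab
  have h1 := hC (show (y, s) ∈ C from hs) (show (y, t) ∈ C from ht) ha hb hab
  have h2 : a • (y, s) + b • (y, t) = (y, a • s + b • t) := by
    ext
    · simp only [Prod.smul_mk, Prod.mk_add_mk, Pi.add_apply, Pi.smul_apply, smul_eq_mul]
      rw [← add_mul, hab, one_mul]
    · simp
  rw [h2] at h1
  exact h1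

theorem t_LC (_hPHI : S_PHI) (hEHR : S_EHR) : S_LC := by
  intro m C hC hCc s s' l hl0 hl1
  have hPLN := Pool.Agent.H902R3.ZA.PLN_ok
    (Pool.Agent.H902R3.ZA.PLA_ok Pool.Agent.H902R3.ZA.LBM_ok)
  have hw0 : 0 < 1 - l := by linarith
  have hw1 : 1 - l < 1 := by linarith
  have h1 := hPLN m (1 - l) hw0 hw1
    ({y : Fin m → ℝ | P s ≤ g1.real (sec C y)}.indicator fun _ => 1)
    ({y : Fin m → ℝ | P s' ≤ g1.real (sec C y)}.indicator fun _ => 1)
    ({y : Fin m → ℝ | P ((1 - l) * s + l * s') ≤ g1.real (sec C y)}.indicator fun _ => 1)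
    (measurable_const.indicator (meas_A hCc s)) (measurable_const.indicator (meas_A hCc s'))
    (measurable_const.indicator (meas_A hCc _))
    (fun x => indicator_le_self' (fun _ _ => zero_le_one) x)
    (fun x => indicator_le_self' (fun _ _ => zero_le_one) x) (by
      intro x y
      have e1 : 1 - (1 - l) = l := by ring
      rw [e1]
      by_cases hx : x ∈ {y : Fin m → ℝ | P s ≤ g1.real (sec C y)}
      · by_cases hy : y ∈ {y : Fin m → ℝ | P s' ≤ g1.real (sec C y)}
        · rw [indicator_of_mem hx, indicator_of_mem hy, indicator_of_mem, ENNReal.one_rpow,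
            ENNReal.one_rpow, one_mul]
          refine hEHR (sec C x) (sec C y) (sec C _) s s' l (convex_sec hC x) (convex_sec hC y)
            hl0 hl1 ?_ hx hy
          intro t ht t' ht'
          have h1 := hC (show (x, t) ∈ C from ht) (show (y, t') ∈ C from ht') hw0.le hl0.le (by ring)
          have h2 : (1 - l) • (x, t) + l • (y, t') =
              ((fun i => (1 - l) * x i + l * y i), (1 - l) * t + l * t') := by
            ext
            · simp only [Prod.smul_mk, Prod.mk_add_mk, Pi.add_apply, Pi.smul_apply, smul_eq_mul]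
            · simp
          rw [h2] at h1
          exact h1
        · rw [indicator_of_notMem hy, ENNReal.zero_rpow_of_pos hl0, mul_zero]
          exact zero_le
      · rw [indicator_of_notMem hx, ENNReal.zero_rpow_of_pos hw0, zero_mul]
        exact zero_le)
  rw [lintegral_indicator_const (meas_A hCc s), lintegral_indicator_const (meas_A hCc s'),
    lintegral_indicator_const (meas_A hCc _), one_mul, one_mul, one_mul] at h1
  have e1 : 1 - (1 - l) = l := by ring
  rw [e1] at h1
  have h2 := ENNReal.toReal_mono (measure_ne_top _ _) h1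
  rw [ENNReal.toReal_mul, ← ENNReal.toReal_rpow, ← ENNReal.toReal_rpow] at h2
  exact h2

end Pool.Agent.Q182.GM
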